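import Pool.Agent.H72.AgeB

namespace Pool.Agent.Results.MP_2feb70_lc.Heights

open Pool.Agent.H72 Pool.Agent.H72.AgeDefs

universe u

/-- The heights of ages with well-founded subage order are exactly the countable ordinals. -/
theorem result (ne : Prop) :
    (∀ (ι : Type u) (ar : ι → ℕ) (A : Set (FinStr ar)) (hA : IsAge ne A)
      (hw : WellFounded (Lt : Sub ne A → Sub ne A → Prop)), height hA hw < Ordinal.omega 1) ∧
    (∀ α : Ordinal.{u}, α < Ordinal.omega 1 →
      ∃ (ι : Type u) (ar : ι → ℕ), Countable ι ∧ (∀ i, 0 < ar i) ∧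
        ∃ (A : Set (FinStr ar)) (hA : IsAge ne A)
          (hw : WellFounded (Lt : Sub ne A → Sub ne A → Prop)), height hA hw = α) :=
  ⟨fun _ _ _ hA hw => AgeA.height_lt hA hw, AgeB.attained ne⟩

end Pool.Agent.Results.MP_2feb70_lc.Heights
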